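import Pool.Agent.IP49.Top

/-!
# The covering threshold exists and lies between `0.83307` and `0.83309`

The sharp threshold of the covering of the discrete cube by random half cubes (capacity of the
Ising perceptron with sign patterns, margin zero), located at the Krauth - Mézard value.
-/

set_option autoImplicit false
open Filter Topology

namespace Pool.Agent.Results.MP_06b7e0_pr.KrauthMezard

/-- There is `t_c ∈ [0.83307, 0.83309]` such that, whenever `m, n → ∞` with `m/n → t`, the
probability that `m` independent uniform vectors `v_k ∈ {-1,1}^n` give every cube point `w` some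
`⟨v_k, w⟩ < 0` tends to `1` if `t > t_c` and to `0` if `t < t_c`. -/
theorem result :
    ∃ tc : ℝ, 0.83307 ≤ tc ∧ tc ≤ 0.83309 ∧ ∀ (m n : ℕ → ℕ) (t : ℝ),
      Tendsto m atTop atTop → Tendsto n atTop atTop →
      Tendsto (fun j => (m j : ℝ) / (n j : ℝ)) atTop (𝓝 t) →
      (tc < t → Tendsto (fun j =>
          ((Finset.univ.filter (fun V : Fin (m j) → Fin (n j) → Bool =>
              ∀ w : Fin (n j) → Bool, ∃ k : Fin (m j),
                ∑ i, (if V k i then (1 : ℤ) else -1) * (if w i then (1 : ℤ) else -1) < 0)).card : ℝ)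
            / (2 : ℝ) ^ (n j * m j)) atTop (𝓝 1)) ∧
      (t < tc → Tendsto (fun j =>
          ((Finset.univ.filter (fun V : Fin (m j) → Fin (n j) → Bool =>
              ∀ w : Fin (n j) → Bool, ∃ k : Fin (m j),
                ∑ i, (if V k i then (1 : ℤ) else -1) * (if w i then (1 : ℤ) else -1) < 0)).card : ℝ)
            / (2 : ℝ) ^ (n j * m j)) atTop (𝓝 0)) := by
  obtain ⟨tc, h1, h2, hL, hU⟩ := Pool.Agent.IP49.threshold_box
  refine ⟨tc, ?_, ?_, Pool.Agent.IP49.frozen_of_gauss hL hU⟩
  · norm_num; linarith
  · norm_num; linarith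

end Pool.Agent.Results.MP_06b7e0_pr.KrauthMezard
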